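import Pool.Agent.WR3.StmtsB

/-!
Row RSN of the squad WR3: the function s_n as a difference of the tree counts.
-/

namespace Pool.Agent.WR3.H39

open Pool.Agent.WIR Pool.Agent.WR2 Pool.Agent.WR3
open scoped BigOperators ENNReal Topology
open Filter

/-- the set of `mu`. -/
def Zs (a : ℕ) (y : ℝ) (c : ℕ) : Set ℕ := {τ : ℕ | T^[τ] c = a ∧ (2 : ℝ) ^ τ ≤ y * 3 ^ od τ c}

lemma mu_eq (a : ℕ) (y : ℝ) (c : ℕ) : mu a y c = ((Zs a y c).ncard : ℝ) := rfl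

/-- the set of the new times. -/
def Ws (a n c : ℕ) : Set ℕ := {τ : ℕ | T^[τ] c = a ∧ τ = Mz (n + 1) (od τ c)}

/-- the set of the l. -/
def Ls (a n c : ℕ) : Set ℕ := {l : ℕ | c ∈ Pre (Mz (n + 1) l) l a}

lemma mz_iff (hflo : FloStmt) (n l τ : ℕ) :
    τ = Mz (n + 1) l ↔ (¬ ((2 : ℝ) ^ τ ≤ 2 ^ n * 3 ^ l)) ∧ (2 : ℝ) ^ τ ≤ 2 ^ (n + 1) * 3 ^ l := by
  obtain ⟨h1, h2⟩ := hflo.2.1 (n + 1) l
  constructor
  · intro h
    rw [h]
    constructor
    · intro h3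
      have h4 : (2 : ℝ) ^ (n + 1) * 3 ^ l < 2 ^ (Mz (n + 1) l + 1) := by exact_mod_cast h2
      have h5 : (2 : ℝ) ^ (n + 1) = 2 * 2 ^ n := by rw [pow_succ]; ring
      have h6 : (2 : ℝ) ^ (Mz (n + 1) l + 1) = 2 * 2 ^ (Mz (n + 1) l) := by rw [pow_succ]; ring
      rw [h5, h6] at h4
      nlinarith
    · exact_mod_cast h1
  · rintro ⟨h3, h4⟩
    have h4' : 2 ^ τ ≤ 2 ^ (n + 1) * 3 ^ l := by exact_mod_cast h4
    have h3' : 2 ^ n * 3 ^ l < 2 ^ τ := by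
      have : (2 : ℝ) ^ n * 3 ^ l < 2 ^ τ := not_le.mp h3
      exact_mod_cast this
    have h5 : 2 ^ (n + 1) * 3 ^ l < 2 ^ (τ + 1) := by
      have h6 : 2 ^ (n + 1) * 3 ^ l = 2 * (2 ^ n * 3 ^ l) := by rw [pow_succ]; ring
      have h7 : 2 ^ (τ + 1) = 2 * 2 ^ τ := by rw [pow_succ]; ring
      omega
    have h8 : 2 ^ τ < 2 ^ (Mz (n + 1) l + 1) := lt_of_le_of_lt h4' h2
    have h9 : 2 ^ (Mz (n + 1) l) < 2 ^ (τ + 1) := lt_of_le_of_lt h1 h5
    have h10 := (Nat.pow_lt_pow_iff_right (by norm_num : 1 < 2)).mp h8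
    have h11 := (Nat.pow_lt_pow_iff_right (by norm_num : 1 < 2)).mp h9
    omega

lemma ws_eq (hflo : FloStmt) (a n c : ℕ) :
    Ws a n c = Zs a (2 ^ (n + 1)) c \ Zs a (2 ^ n) c := by
  ext τ
  simp only [Ws, Zs, Set.mem_setOf_eq, Set.mem_diff]
  rw [mz_iff hflo]
  tauto

lemma ws_ls (hpre : PreStmt) (a n c : ℕ) (hc : 0 < c) :
    (Ws a n c).ncard = (Ls a n c).ncard := by
  have h : Ws a n c = (fun l => Mz (n + 1) l) '' (Ls a n c) := by
    ext τ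
    simp only [Ws, Ls, Set.mem_setOf_eq, Set.mem_image]
    constructor
    · rintro ⟨h1, h2⟩
      refine ⟨od τ c, ?_, h2.symm⟩
      rw [hpre.1]
      refine ⟨hc, ?_, ?_⟩
      · rw [← h2]; exact h1
      · rw [← h2]
    · rintro ⟨l, h1, h2⟩
      rw [hpre.1] at h1
      obtain ⟨h3, h4, h5⟩ := h1
      rw [h2] at h4 h5
      refine ⟨h4, ?_⟩
      rw [h5, h2]
  rw [h]
  apply Set.ncard_image_of_injOn
  intro l hl l' hl' hll
  simp only [Ls, Set.mem_setOf_eq] at hl hl'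
  rw [hpre.1] at hl hl'
  simp only at hll
  have h1 := hl.2.2
  have h2 := hl'.2.2
  rw [← hll] at h2
  rw [← h1, ← h2]

lemma ls_fin (hrmu : RmuStmt) (hpre : PreStmt) (hflo : FloStmt) (a : ℕ) (ha : 0 < a) (n c : ℕ)
    (hc : 0 < c) : (Ls a n c).Finite := by
  have h1 : (Ws a n c).Finite := by
    rw [ws_eq hflo]
    exact ((hrmu a ha).1 _ _).subset Set.diff_subset
  have h : (fun l => Mz (n + 1) l) '' (Ls a n c) ⊆ Ws a n c := by
    rintro τ ⟨l, hl, rfl⟩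
    simp only [Ls, Set.mem_setOf_eq] at hl
    rw [hpre.1] at hl
    refine ⟨hl.2.1, ?_⟩
    simp only
    rw [hl.2.2]
  refine Set.Finite.of_finite_image (h1.subset h) ?_
  intro l hl l' hl' hll
  simp only [Ls, Set.mem_setOf_eq] at hl hl'
  rw [hpre.1] at hl hl'
  simp only at hll
  have h1 := hl.2.2
  have h2 := hl'.2.2
  rw [← hll] at h2
  rw [← h1, ← h2]

lemma mu_diff (hrmu : RmuStmt) (hpre : PreStmt) (hflo : FloStmt) (a : ℕ) (ha : 0 < a) (n c : ℕ)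
    (hc : 0 < c) :
    mu a (2 ^ (n + 1)) c = mu a (2 ^ n) c + ((Ls a n c).ncard : ℝ) := by
  have hle : (2 : ℝ) ^ n ≤ 2 ^ (n + 1) := pow_le_pow_right₀ (by norm_num) (by omega)
  have hsub : Zs a (2 ^ n) c ⊆ Zs a (2 ^ (n + 1)) c := by
    rintro τ ⟨h1, h2⟩
    refine ⟨h1, h2.trans ?_⟩
    exact mul_le_mul_of_nonneg_right hle (by positivity)
  have hfin : (Zs a (2 ^ (n + 1)) c).Finite := (hrmu a ha).1 _ _
  have h := Set.ncard_sdiff_add_ncard_of_subset hsub hfin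
  rw [← ws_ls hpre a n c hc, ws_eq hflo, mu_eq, mu_eq]
  have h' : ((Zs a (2 ^ (n + 1)) c).ncard : ℝ)
      = ((Zs a (2 ^ (n + 1)) c \ Zs a (2 ^ n) c).ncard : ℝ) + ((Zs a (2 ^ n) c).ncard : ℝ) := by
    exact_mod_cast h.symm
  rw [h']; ring

lemma mu_zero (hrmu : RmuStmt) (a : ℕ) (ha : 0 < a) (y : ℝ) (c : ℕ) (h : (a : ℝ) * y < c) :
    mu a y c = 0 := by
  rw [mu_eq]
  have : Zs a y c = ∅ := by
    apply Set.eq_empty_of_forall_notMem
    rintro τ ⟨h1, h2⟩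
    have := ((hrmu a ha).2.1 y c τ h1 h2).2
    linarith
  rw [this]
  simp

lemma fr_ext (hrmu : RmuStmt) (a : ℕ) (ha : 0 < a) (y : ℝ) (N : ℕ) (hy : 0 ≤ y)
    (hN : ⌊(a : ℝ) * y⌋₊ ≤ N) : FR a y = ∑ c ∈ Finset.Icc 1 N, mu a y c := by
  unfold FR
  apply Finset.sum_subset (Finset.Icc_subset_Icc_right hN)
  intro c hc hc'
  apply mu_zero hrmu a ha
  simp only [Finset.mem_Icc] at hc hc'
  have h1 : ⌊(a : ℝ) * y⌋₊ < c := by
    by_contra hcon
    exact hc' ⟨hc.1, not_lt.mp hcon⟩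
  exact Nat.lt_of_floor_lt h1

theorem rsn (hrmu : RmuStmt) (hpre : PreStmt) (hflo : FloStmt) : RsnStmt := by
  intro a ha n
  have hle : (2 : ℝ) ^ n ≤ 2 ^ (n + 1) := pow_le_pow_right₀ (by norm_num) (by omega)
  refine ⟨((hrmu a ha).2.2.2 _ _ hle).2, ?_⟩
  set N := ⌊(a : ℝ) * 2 ^ (n + 1)⌋₊ with hN
  have h1 : FR a (2 ^ (n + 1)) = ∑ c ∈ Finset.Icc 1 N, mu a (2 ^ (n + 1)) c :=
    fr_ext hrmu a ha _ N (by positivity) le_rfl
  have h2 : FR a (2 ^ n) = ∑ c ∈ Finset.Icc 1 N, mu a (2 ^ n) c := by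
    apply fr_ext hrmu a ha _ N (by positivity)
    apply Nat.floor_le_floor
    exact mul_le_mul_of_nonneg_left hle (by positivity)
  have h3 : FR a (2 ^ (n + 1)) - FR a (2 ^ n)
      = ((∑ c ∈ Finset.Icc 1 N, (Ls a n c).ncard : ℕ) : ℝ) := by
    rw [h1, h2, ← Finset.sum_sub_distrib]
    push_cast
    apply Finset.sum_congr rfl
    intro c hc
    rw [mu_diff hrmu hpre hflo a ha n c (Finset.mem_Icc.mp hc).1]
    ring
  rw [h3, ENNReal.ofReal_natCast]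
  -- bound for the l
  have hbd : ∃ L : ℕ, ∀ c ∈ Finset.Icc 1 N, ∀ l ∈ Ls a n c, l < L := by
    have hfin : (⋃ c ∈ Finset.Icc 1 N, Ls a n c).Finite := by
      apply Set.Finite.biUnion (Finset.finite_toSet _)
      intro c hc
      exact ls_fin hrmu hpre hflo a ha n c (Finset.mem_Icc.mp (Finset.mem_coe.mp hc)).1
    obtain ⟨L, hL⟩ := hfin.bddAbove
    refine ⟨L + 1, fun c hc l hl => ?_⟩
    have : l ∈ ⋃ c ∈ Finset.Icc 1 N, Ls a n c := by
      simp only [Set.mem_iUnion]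
      exact ⟨c, hc, hl⟩
    exact Nat.lt_succ_of_le (hL this)
  obtain ⟨L, hL⟩ := hbd
  have hmem : ∀ l c, c ∈ Pre (Mz (n + 1) l) l a → c ∈ Finset.Icc 1 N := by
    intro l c hc
    have hc' := hc
    rw [hpre.1] at hc'
    have h4 : c ∈ Pre (Mz (n + 1) l) l a := hc
    have h5 : (2 : ℝ) ^ (Mz (n + 1) l) ≤ 2 ^ (n + 1) * 3 ^ od (Mz (n + 1) l) c := by
      rw [hc'.2.2]
      exact_mod_cast (hflo.2.1 (n + 1) l).1
    have h6 := (hrmu a ha).2.1 (2 ^ (n + 1)) c (Mz (n + 1) l) hc'.2.1 h5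
    rw [Finset.mem_Icc]
    exact ⟨hc'.1, Nat.le_floor h6.2⟩
  have hsum : sN (n + 1) a = ∑ l ∈ Finset.range L, ((uT (Mz (n + 1) l) l a : ℕ) : ℝ≥0∞) := by
    unfold sN
    apply tsum_eq_sum
    intro l hl
    rw [hpre.2.2.1]
    have : Pre (Mz (n + 1) l) l a = ∅ := by
      apply Finset.eq_empty_of_forall_notMem
      intro c hc
      exact hl (Finset.mem_range.mpr (hL c (hmem l c hc) l hc))
    rw [this]
    simp
  rw [hsum, ← Nat.cast_sum]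
  congr 1
  classical
  have h7 : ∀ l, uT (Mz (n + 1) l) l a
      = ∑ c ∈ Finset.Icc 1 N, if c ∈ Pre (Mz (n + 1) l) l a then 1 else 0 := by
    intro l
    rw [hpre.2.2.1, Finset.sum_ite_mem, Finset.sum_const, smul_eq_mul, mul_one]
    congr 1
    rw [Finset.inter_eq_right.mpr]
    intro c hc
    exact hmem l c hc
  simp_rw [h7]
  rw [Finset.sum_comm]
  apply Finset.sum_congr rfl
  intro c hc
  have h8 : Ls a n c = ((Finset.range L).filter (fun l => c ∈ Pre (Mz (n + 1) l) l a) : Finset ℕ) := by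
    ext l
    simp only [Ls, Set.mem_setOf_eq, Finset.coe_filter, Finset.mem_range]
    constructor
    · intro h9
      exact ⟨hL c hc l h9, h9⟩
    · intro h9
      exact h9.2
  rw [h8, Set.ncard_coe_finset, Finset.card_filter]

end Pool.Agent.WR3.H39
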